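import Pool.Agent.SGL.StmtsG
import Pool.Agent.Helper56_SGP.CTR

set_option autoImplicit false

/-! Row GIN of squad SGL (MP_41797f_co): the outer triangle contains all points. -/

noncomputable section

namespace Pool.Agent.SGL.H62

open Pool.Agent.SGE Pool.Agent.SGP Pool.Agent.SGY Pool.Agent.SGD Pool.Agent.SGL

theorem hh_ge (N : ℕ) : 1 ≤ hh N :=
  one_le_pow₀ (by have : (0 : ℝ) ≤ N := Nat.cast_nonneg N; linarith)

theorem bb_ge (N : ℕ) : 1 ≤ bb N := by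
  have h0 : (0 : ℝ) ≤ N := Nat.cast_nonneg N
  have h1 := hh_ge N
  unfold bb
  nlinarith

theorem co_a {V : Type} (a : V) (N : ℕ) (σ : ℕ → ℕ) (k ρ : V → ℕ) :
    co a N σ k ρ a = (ww N σ, 0) := by
  unfold co
  rw [if_pos rfl]

theorem co_n {V : Type} {a v : V} (N : ℕ) (σ : ℕ → ℕ) (k ρ : V → ℕ) (h : v ≠ a) :
    co a N σ k ρ v = ((ρ v : ℝ), bb N ^ σ (k v) + ((N : ℝ) + 3) ^ k v) := by
  unfold co
  rw [if_neg h]

theorem y_step {N : ℕ} {σ : ℕ → ℕ} (hσ : Monotone σ) {i j : ℕ} (h : i < j) :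
    bb N ^ σ i + ((N : ℝ) + 3) ^ i + 1 ≤ bb N ^ σ j + ((N : ℝ) + 3) ^ j := by
  have h0 : (0 : ℝ) ≤ N := Nat.cast_nonneg N
  have h1 : bb N ^ σ i ≤ bb N ^ σ j := pow_le_pow_right₀ (bb_ge N) (hσ h.le)
  have h2 : ((N : ℝ) + 3) ^ (i + 1) ≤ ((N : ℝ) + 3) ^ j := pow_le_pow_right₀ (by linarith) h
  have h3 : (1 : ℝ) ≤ ((N : ℝ) + 3) ^ i := one_le_pow₀ (by linarith)
  rw [pow_succ] at h2
  nlinarith

theorem y_pos (N i j : ℕ) : 0 < bb N ^ i + ((N : ℝ) + 3) ^ j := by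
  have h0 : (0 : ℝ) ≤ N := Nat.cast_nonneg N
  have h1 : 0 < bb N := by linarith [bb_ge N]
  positivity

theorem y_le {N : ℕ} {σ : ℕ → ℕ} (hσ : Monotone σ) {i : ℕ} (h : i ≤ N + 1) :
    bb N ^ σ i + ((N : ℝ) + 3) ^ i ≤ bb N ^ σ (N + 1) + hh N := by
  have h0 : (0 : ℝ) ≤ N := Nat.cast_nonneg N
  have h1 : bb N ^ σ i ≤ bb N ^ σ (N + 1) := pow_le_pow_right₀ (bb_ge N) (hσ h)
  have h2 : ((N : ℝ) + 3) ^ i ≤ ((N : ℝ) + 3) ^ (N + 1) := pow_le_pow_right₀ (by linarith) h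
  unfold hh
  linarith

theorem gin : GinStmt := by
  intro V _ a b c E F N σ k ρ hσ hN L
  have hab : a ≠ b := hN.ab
  have hnd : [a, c, b].Nodup := hN.nd
  have hac : a ≠ c := by
    rintro rfl
    simp at hnd
  have hcb : c ≠ b := by
    rintro rfl
    simp at hnd
  have hRa : Rel E a := Pool.Agent.SGP.H56.contour_nb hN (by simp)
  have hRb : Rel E b := Pool.Agent.SGP.H56.contour_nb hN (by simp)
  have hRc : Rel E c := Pool.Agent.SGP.H56.contour_nb hN (by simp)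
  have h0 : (0 : ℝ) ≤ N := Nat.cast_nonneg N
  have hH := hh_ge N
  have hBp : 0 ≤ bb N ^ σ (N + 1) := pow_nonneg (by linarith [bb_ge N]) _
  have hcx : ∀ x, Rel E x → x ≠ a → (ρ x : ℝ) ≤ N + 1 := by
    intro x h1 h2
    exact_mod_cast L.rl x h1 h2
  have hW : ((N : ℝ) + 1) < ww N σ := by
    unfold ww
    nlinarith
  have hW2 : ((N : ℝ) + 1) * (bb N ^ σ (N + 1) + hh N) < ww N σ := by
    unfold ww
    nlinarith
  have kpos : ∀ x, Rel E x → x ≠ a → x ≠ c → k c < k x := by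
    intro x h1 h2 h3
    rw [L.kc]
    rcases Nat.eq_zero_or_pos (k x) with h | h
    · exact absurd (L.ki x c h1 hRc h2 (Ne.symm hac) (by rw [h, L.kc])) h3
    · exact h
  have kb : ∀ x, Rel E x → x ≠ a → x ≠ b → k x < k b := by
    intro x h1 h2 h3
    have h4 := L.kl x h1 h2
    rw [← L.kb] at h4
    rcases Nat.lt_or_eq_of_le h4 with h | h
    · exact h
    · exact absurd (L.ki x b h1 hRb h2 (Ne.symm hab) h) h3
  have A : ∀ x, Rel E x → x ≠ a → x ≠ c →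
      0 < o (co a N σ k ρ c) (co a N σ k ρ a) (co a N σ k ρ x) := by
    intro x h1 h2 h3
    rw [co_a, co_n N σ k ρ h2, co_n N σ k ρ (Ne.symm hac)]
    unfold o
    simp only
    have e1 := y_step (N := N) hσ (kpos x h1 h2 h3)
    have e2 : (ρ c : ℝ) < ρ x := by exact_mod_cast L.rc x h1 h2 h3
    have e3 := hcx c hRc (Ne.symm hac)
    have e4 := y_pos N (σ (k c)) (k c)
    have e5 : 0 < (ww N σ - (ρ c : ℝ)) * (bb N ^ σ (k x) + ((N : ℝ) + 3) ^ k x -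
        (bb N ^ σ (k c) + ((N : ℝ) + 3) ^ k c)) := mul_pos (by linarith) (by linarith)
    have e6 : 0 < (bb N ^ σ (k c) + ((N : ℝ) + 3) ^ k c) * ((ρ x : ℝ) - ρ c) :=
      mul_pos e4 (by linarith)
    linarith
  refine ⟨?_, ?_⟩
  · rw [o_rot, o_rot]
    exact A b hRb (Ne.symm hab) (Ne.symm hcb)
  · rintro x ⟨hxa, hxb, hxc, hRx⟩
    refine ⟨?_, ?_, A x hRx hxa hxc⟩
    · rw [co_a, co_n N σ k ρ hxa, co_n N σ k ρ (Ne.symm hab)]
      unfold o
      simp only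
      have e1 := y_step (N := N) hσ (kb x hRx hxa hxb)
      have e2 := y_le (N := N) hσ (L.kl b hRb (Ne.symm hab))
      have e3 := hcx x hRx hxa
      have e4 := y_pos N (σ (k x)) (k x)
      have e5 := y_pos N (σ (k b)) (k b)
      have e6 : (0 : ℝ) ≤ ρ b := Nat.cast_nonneg _
      have e6' : (0 : ℝ) ≤ ρ x := Nat.cast_nonneg _
      set Y := bb N ^ σ (k b) + ((N : ℝ) + 3) ^ k b
      set y := bb N ^ σ (k x) + ((N : ℝ) + 3) ^ k x
      have e7 : Y * (ρ x : ℝ) ≤ (bb N ^ σ (N + 1) + hh N) * ((N : ℝ) + 1) :=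
        mul_le_mul e2 e3 e6' (by linarith)
      have e8 : ww N σ * 1 ≤ ww N σ * (Y - y) :=
        mul_le_mul_of_nonneg_left (by linarith) (by linarith)
      have e9 : 0 ≤ (ρ b : ℝ) * y := mul_nonneg e6 e4.le
      linarith
    · rw [co_n N σ k ρ hxa, co_n N σ k ρ (Ne.symm hab), co_n N σ k ρ (Ne.symm hac)]
      unfold o
      simp only
      have e1 := y_step (N := N) hσ (kb x hRx hxa hxb)
      have e2 := y_step (N := N) hσ (kb c hRc (Ne.symm hac) hcb)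
      have e3 : (ρ c : ℝ) < ρ b := by exact_mod_cast L.rc b hRb (Ne.symm hab) (Ne.symm hcb)
      have e4 : (ρ b : ℝ) < ρ x := by exact_mod_cast L.rb x hRx hxa hxb hxc
      have e5 := mul_pos_of_neg_of_neg (a := (ρ c : ℝ) - ρ b)
        (b := bb N ^ σ (k x) + ((N : ℝ) + 3) ^ k x - (bb N ^ σ (k b) + ((N : ℝ) + 3) ^ k b))
        (by linarith) (by linarith)
      have e6 := mul_neg_of_neg_of_pos
        (a := bb N ^ σ (k c) + ((N : ℝ) + 3) ^ k c - (bb N ^ σ (k b) + ((N : ℝ) + 3) ^ k b))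
        (b := (ρ x : ℝ) - ρ b) (by linarith) (by linarith)
      linarith

end Pool.Agent.SGL.H62
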