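import Pool.Agent.SGL.StmtsS

set_option autoImplicit false

/-! Row RKS of squad SGL (MP_41797f_co): from real x-coordinates to the columns. -/

noncomputable section

namespace Pool.Agent.SGL.H62

open Pool.Agent.SGE Pool.Agent.SGP Pool.Agent.SGY Pool.Agent.SGD Pool.Agent.SGL

open Classical in
/-- The index. -/
def kx {V : Type} (N : ℕ) (v : ℕ → V) (u : V) : ℕ :=
  if h : ∃ i, i ≤ N + 1 ∧ v i = u then h.choose else 0

open Classical in
/-- The rank. -/
def rx {V : Type} (N : ℕ) (v : ℕ → V) (x : V → ℝ) (u : V) : ℕ :=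
  ((Finset.range (N + 2)).filter (fun i => x (v i) < x u)).card

theorem kx_v {V : Type} {N : ℕ} {v : ℕ → V}
    (inj : ∀ i j, i ≤ N + 1 → j ≤ N + 1 → v i = v j → i = j) {i : ℕ} (hi : i ≤ N + 1) :
    kx N v (v i) = i := by
  have h : ∃ j, j ≤ N + 1 ∧ v j = v i := ⟨i, hi, rfl⟩
  unfold kx
  rw [dif_pos h]
  exact inj _ _ h.choose_spec.1 hi h.choose_spec.2

theorem rx_lt {V : Type} {N : ℕ} {v : ℕ → V} {x : V → ℝ} {i : ℕ} (hi : i ≤ N + 1) {u : V}
    (h : x (v i) < x u) : rx N v x (v i) < rx N v x u := by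
  classical
  unfold rx
  refine Finset.card_lt_card ?_
  rw [Finset.ssubset_iff_of_subset]
  · refine ⟨i, ?_, ?_⟩
    · rw [Finset.mem_filter, Finset.mem_range]
      exact ⟨by omega, h⟩
    · rw [Finset.mem_filter]
      rintro ⟨-, h1⟩
      exact lt_irrefl _ h1
  · intro l hl
    rw [Finset.mem_filter] at hl ⊢
    exact ⟨hl.1, hl.2.trans h⟩

theorem rx_le {V : Type} {N : ℕ} {v : ℕ → V} {x : V → ℝ} {i : ℕ} (hi : i ≤ N + 1) :
    rx N v x (v i) ≤ N + 1 := by
  classical
  unfold rx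
  have h : ((Finset.range (N + 2)).filter (fun l => x (v l) < x (v i))) ⊂ Finset.range (N + 2) := by
    rw [Finset.ssubset_iff_of_subset (Finset.filter_subset _ _)]
    refine ⟨i, Finset.mem_range.2 (by omega), ?_⟩
    rw [Finset.mem_filter]
    rintro ⟨-, h1⟩
    exact lt_irrefl _ h1
  have h2 := Finset.card_lt_card h
  rw [Finset.card_range] at h2
  omega

theorem rks : RksStmt := by
  intro V _ a b c E F N v C₁ C S R σ x hx h0 hb hg
  have hk : ∀ i, i ≤ N + 1 → kx N v (v i) = i := fun i hi => kx_v R.inj hi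
  have hrep : ∀ u, Rel E u → u ≠ a → ∃ i, i ≤ N + 1 ∧ v i = u := by
    intro u hu ha
    by_cases hc : u = c
    · exact ⟨0, by omega, by rw [R.v0, hc]⟩
    by_cases hb' : u = b
    · exact ⟨N + 1, le_rfl, by rw [R.vb, hb']⟩
    have h1 : u ∈ Inn a b c E := ⟨ha, hb', hc, hu⟩
    rw [← R.inn] at h1
    obtain ⟨i, -, h3, h4⟩ := h1
    exact ⟨i, by omega, h4⟩
  have hmem : ∀ l j, l ≤ j → v l ∈ Kl v j ∪ {a, c} := by
    intro l j hl
    rcases Nat.eq_zero_or_pos l with h | h
    · right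
      rw [h, R.v0]
      simp
    · left
      exact ⟨l, h, hl, rfl⟩
  have relx : ∀ x y z, F x y z → Rel E x := fun x y z h => ⟨y, R.nt.fe _ _ _ h⟩
  refine ⟨kx N v, rx N v x, ?_, ?_, ?_, ?_, ?_, ?_, ?_, ?_, ?_, ?_⟩
  · rw [← R.v0]
    exact hk 0 (by omega)
  · rw [← R.vb]
    exact hk (N + 1) le_rfl
  · intro u hu ha
    obtain ⟨i, hi, rfl⟩ := hrep u hu ha
    rw [hk i hi]
    exact hi
  · intro u w hu hw hua hwa h
    obtain ⟨i, hi, rfl⟩ := hrep u hu hua
    obtain ⟨j, hj, rfl⟩ := hrep w hw hwa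
    rw [hk i hi, hk j hj] at h
    rw [h]
  · intro u hu ha
    obtain ⟨i, hi, rfl⟩ := hrep u hu ha
    exact rx_le hi
  · intro u w hu hw hua hwa h
    obtain ⟨i, hi, rfl⟩ := hrep u hu hua
    obtain ⟨j, hj, rfl⟩ := hrep w hw hwa
    rcases lt_trichotomy (x (v i)) (x (v j)) with h1 | h1 | h1
    · have := rx_lt (N := N) hi h1
      omega
    · rw [hx i j hi hj h1]
    · have := rx_lt (N := N) hj h1
      omega
  · intro u hu ha hc
    obtain ⟨i, hi, rfl⟩ := hrep u hu ha
    have hi0 : 1 ≤ i := by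
      rcases Nat.eq_zero_or_pos i with h | h
      · exact absurd (by rw [h, R.v0]) hc
      · exact h
    rw [← R.v0]
    exact rx_lt (by omega) (h0 i hi0 hi)
  · intro u hu ha hbb hc
    obtain ⟨i, hi, rfl⟩ := hrep u hu ha
    have hi0 : 1 ≤ i := by
      rcases Nat.eq_zero_or_pos i with h | h
      · exact absurd (by rw [h, R.v0]) hc
      · exact h
    have hiN : i ≤ N := by
      rcases Nat.lt_or_eq_of_le hi with h | h
      · omega
      · exact absurd (by rw [h, R.vb]) hbb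
    rw [← R.vb]
    exact rx_lt le_rfl (hb i hi0 hiN)
  · intro u w z hF hua hwa hza hu hw
    have hF1 := R.nt.rot _ _ _ hF
    have hF2 := R.nt.rot _ _ _ hF1
    obtain ⟨l, hl, rfl⟩ := hrep u (relx _ _ _ hF) hua
    obtain ⟨m, hm, rfl⟩ := hrep w (relx _ _ _ hF1) hwa
    obtain ⟨n, hn, rfl⟩ := hrep z (relx _ _ _ hF2) hza
    rw [hk l hl, hk n hn] at hu
    rw [hk m hm, hk n hn] at hw
    obtain ⟨j, rfl⟩ : ∃ j, n = j + 1 := ⟨n - 1, by omega⟩
    have hj : j ≤ N := by omega
    have hlj : l ≤ j := by omega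
    have hmj : m ≤ j := by omega
    have hcon := R.fc j hj (v l) (v m) hF (hmem l j hlj) (hmem m j hmj)
    have G := hg j hj
    rw [hk l hl, hk m hm, hk (j + 1) hn]
    refine ⟨rx_lt hl (G.up l m hlj hmj hcon), fun h1 h2 => ?_, fun h1 h2 => ?_⟩
    · exact rx_lt hl (G.lo l m hlj hmj hcon h2 (h2 ▸ h1))
    · exact rx_lt hn (G.hi l m hlj hmj hcon (h2 ▸ h1) h2)
  · intro u z hF
    have hF1 := R.nt.rot _ _ _ hF
    have hF2 := R.nt.rot _ _ _ hF1
    have hE := R.nt.fe _ _ _ hF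
    have hE1 := R.nt.fe _ _ _ hF1
    have hE2 := R.nt.fe _ _ _ hF2
    have hua : u ≠ a := by
      rintro rfl
      exact R.nt.irr _ hE
    have hza : z ≠ a := by
      rintro rfl
      exact R.nt.irr _ hE1
    have hzu : z ≠ u := by
      rintro rfl
      exact R.nt.irr _ hE2
    obtain ⟨l, hl, rfl⟩ := hrep u (relx _ _ _ hF) hua
    obtain ⟨m, hm, rfl⟩ := hrep z (relx _ _ _ hF2) hza
    rw [hk l hl, hk m hm]
    by_contra hcon
    have hml : m < l := by
      rcases Nat.lt_or_eq_of_le (not_lt.1 hcon) with h | h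
      · exact h
      · exact absurd (by rw [h]) hzu
    obtain ⟨j, rfl⟩ : ∃ j, l = j + 1 := ⟨l - 1, by omega⟩
    have hj : j ≤ N := by omega
    have ha : a ∈ Kl v j ∪ {a, c} := by
      right
      simp
    obtain ⟨P', Q', h1⟩ := R.fc j hj a (v m) hF1 ha (hmem m j (by omega))
    obtain ⟨P, p, mid, q, Q, h2, h3, -⟩ := R.stp j hj
    have h4 : C j = (P ++ P') ++ a :: (v m :: (Q' ++ Q)) := by
      have h5 : C j = P ++ (S j ++ Q) := by
        rw [h3, h2]
        simp
      rw [h5, h1]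
      simp
    have hls := (R.st j hj).n2.ls
    have hnd := (R.st j hj).n2.nd
    rw [h4] at hls hnd
    have h6 : a ∈ v m :: (Q' ++ Q) := by
      rw [List.getLast?_append, List.getLast?_cons_cons] at hls
      have h7 : (v m :: (Q' ++ Q)).getLast? = some a := by
        rcases h8 : (v m :: (Q' ++ Q)).getLast? with _ | t
        · simp at h8
        · rw [h8] at hls
          simpa using hls
      exact List.mem_of_getLast? h7
    rw [List.nodup_append] at hnd
    exact (List.nodup_cons.1 hnd.2.1).1 h6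

end Pool.Agent.SGL.H62
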